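import Pool.Agent.H55.GW.Targets2

/-!
# Natural number valued rank function of a matroid on a finite ground set
-/

set_option autoImplicit false

namespace Pool.Agent.H50.GW

open Pool.Agent.H55.GW Set

variable {M : Matroid ℕ}

theorem eRk_ne_top (hE : M.E.Finite) (X : Set ℕ) : M.eRk X ≠ ⊤ := by
  have h1 : M.eRk X ≤ (X ∩ M.E).encard := by
    rw [← M.eRk_inter_ground X]
    exact M.eRk_le_encard _
  have h2 : (X ∩ M.E).encard < ⊤ := (hE.subset inter_subset_right).encard_lt_top
  exact (lt_of_le_of_lt h1 h2).ne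

theorem coe_rk (hE : M.E.Finite) (X : Set ℕ) : ((rk M X : ℕ) : ℕ∞) = M.eRk X :=
  ENat.natCast_toNat (eRk_ne_top hE X)

theorem rk_mono (hE : M.E.Finite) {X Y : Set ℕ} (h : X ⊆ Y) : rk M X ≤ rk M Y := by
  have h1 : ((rk M X : ℕ) : ℕ∞) ≤ ((rk M Y : ℕ) : ℕ∞) := by
    rw [coe_rk hE, coe_rk hE]
    exact M.eRk_mono h
  exact_mod_cast h1

theorem rk_submod (hE : M.E.Finite) (X Y : Set ℕ) :
    rk M (X ∩ Y) + rk M (X ∪ Y) ≤ rk M X + rk M Y := by
  have h1 : ((rk M (X ∩ Y) + rk M (X ∪ Y) : ℕ) : ℕ∞) ≤ ((rk M X + rk M Y : ℕ) : ℕ∞) := by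
    push_cast
    rw [coe_rk hE, coe_rk hE, coe_rk hE, coe_rk hE]
    exact M.eRk_inter_add_eRk_union_le X Y
  exact_mod_cast h1

theorem rk_empty (M : Matroid ℕ) : rk M ∅ = 0 := by
  simp [rk]

theorem rk_singleton_le (hE : M.E.Finite) (e : ℕ) : rk M {e} ≤ 1 := by
  have h1 : ((rk M {e} : ℕ) : ℕ∞) ≤ ((1 : ℕ) : ℕ∞) := by
    rw [coe_rk hE]
    exact_mod_cast M.eRk_singleton_le e
  exact_mod_cast h1

theorem rk_le_ncard (hE : M.E.Finite) {X : Set ℕ} (hX : X ⊆ M.E) : rk M X ≤ X.ncard := by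
  have h1 : ((rk M X : ℕ) : ℕ∞) ≤ ((X.ncard : ℕ) : ℕ∞) := by
    rw [coe_rk hE, (hE.subset hX).cast_ncard_eq]
    exact M.eRk_le_encard X
  exact_mod_cast h1

theorem delete_finite (hE : M.E.Finite) (e : ℕ) : (M.delete {e}).E.Finite := by
  rw [Matroid.delete_ground]
  exact hE.subset sdiff_subset

theorem contract_finite (hE : M.E.Finite) (e : ℕ) : (M.contract {e}).E.Finite := by
  rw [Matroid.contract_ground]
  exact hE.subset sdiff_subset

theorem rk_delete (e : ℕ) {X : Set ℕ} (hX : X ⊆ M.E \ {e}) :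
    rk (M.delete {e}) X = rk M X := by
  unfold rk
  rw [Matroid.delete_eq_restrict, Matroid.restrict_eRk_eq M hX]

theorem eRk_contract (e : ℕ) {X : Set ℕ} (he : e ∉ X) :
    (M.contract {e}).eRk X + M.eRk {e} = M.eRk (insert e X) := by
  by_cases hl : M.IsNonloop e
  · have hi : M.Indep {e} := hl.indep
    obtain ⟨I, hI, heI⟩ := hi.subset_isBasis'_of_subset (X := insert e X)
      (by simp)
    have h1 := hI.contract_isBasis'_sdiff_sdiff_of_subset heI
    have h2 : insert e X \ {e} = X := by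
      rw [insert_sdiff_of_mem X (mem_singleton e)]
      exact sdiff_singleton_eq_self he
    rw [h2] at h1
    rw [h1.eRk_eq_encard, hI.eRk_eq_encard, hl.eRk_eq]
    have h3 : e ∈ I := heI (mem_singleton e)
    exact encard_sdiff_singleton_add_one h3
  · by_cases heE : e ∈ M.E
    · have hloop : M.IsLoop e := by
        rwa [Matroid.not_isNonloop_iff] at hl
      have h1 : ({e} : Set ℕ) ⊆ M.loops := by
        intro x hx
        rw [mem_singleton_iff] at hx
        subst hx
        exact hloop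
      rw [Matroid.contract_eq_delete_of_subset_loops h1, hloop.eRk_eq, add_zero,
        Matroid.delete_eq_restrict, Matroid.restrict_eRk_eq']
      have h2 : M.eRk (insert e X) = M.eRk (X ∪ {e}) := by
        rw [union_singleton]
      rw [h2, M.eRk_eq_eRk_union_eRk_le_zero X (by rw [hloop.eRk_eq])]
      have h3 : X ∩ (M.E \ {e}) = X ∩ M.E := by
        ext x
        simp only [mem_inter_iff, mem_sdiff, mem_singleton_iff]
        constructor
        · rintro ⟨a, b, c⟩
          exact ⟨a, b⟩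
        · rintro ⟨a, b⟩
          exact ⟨a, b, fun h => he (h ▸ a)⟩
      rw [h3, M.eRk_inter_ground]
    · rw [Matroid.contractElem_eq_self heE, M.eRk_insert_of_notMem_ground X heE]
      have h1 : M.eRk {e} = M.eRk (insert e ∅) := by simp
      rw [h1, M.eRk_insert_of_notMem_ground ∅ heE, M.eRk_empty, add_zero]

theorem rk_contract (hE : M.E.Finite) (e : ℕ) {X : Set ℕ} (he : e ∉ X) :
    rk (M.contract {e}) X + rk M {e} = rk M (insert e X) := by
  have h1 : ((rk (M.contract {e}) X + rk M {e} : ℕ) : ℕ∞) = ((rk M (insert e X) : ℕ) : ℕ∞) := by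
    push_cast
    rw [coe_rk (contract_finite hE e), coe_rk hE, coe_rk hE]
    exact eRk_contract e he
  exact_mod_cast h1

/-- integer form of the connectivity function -/
theorem lam_add (hE : M.E.Finite) {X : Set ℕ} (hX : X ⊆ M.E) :
    lam M X + rk M M.E = rk M X + rk M (M.E \ X) := by
  have h1 := rk_submod hE X (M.E \ X)
  have h2 : X ∪ (M.E \ X) = M.E := union_sdiff_cancel hX
  have h3 : X ∩ (M.E \ X) = ∅ := inter_sdiff_self X M.E
  rw [h2, h3, rk_empty] at h1
  unfold lam
  omega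

theorem lam_delete (hE : M.E.Finite) {e : ℕ} {X : Set ℕ} (hX : X ⊆ M.E \ {e}) :
    lam (M.delete {e}) X + rk M (M.E \ {e}) = rk M X + rk M ((M.E \ {e}) \ X) := by
  have h1 := lam_add (delete_finite hE e) (X := X) (by rwa [Matroid.delete_ground])
  rw [Matroid.delete_ground, rk_delete e subset_rfl, rk_delete e hX,
    rk_delete e sdiff_subset] at h1
  exact h1

theorem lam_contract (hE : M.E.Finite) {e : ℕ} (he : e ∈ M.E) {X : Set ℕ} (hX : X ⊆ M.E \ {e}) :
    lam (M.contract {e}) X + rk M M.E + rk M {e} = rk M (insert e X) + rk M (M.E \ X) := by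
  have h1 := lam_add (contract_finite hE e) (X := X) (by rwa [Matroid.contract_ground])
  rw [Matroid.contract_ground] at h1
  have heX : e ∉ X := fun h => (hX h).2 rfl
  have h2 := rk_contract hE e heX
  have h3 := rk_contract hE e (X := (M.E \ {e}) \ X) (fun h => h.1.2 rfl)
  have h4 := rk_contract hE e (X := M.E \ {e}) (fun h => h.2 rfl)
  have h5 : insert e (M.E \ {e}) = M.E := by
    rw [insert_sdiff_singleton]
    exact insert_eq_of_mem he
  have h6 : insert e ((M.E \ {e}) \ X) = M.E \ X := by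
    ext x
    simp only [mem_insert_iff, mem_sdiff, mem_singleton_iff]
    constructor
    · rintro (rfl | ⟨⟨a, b⟩, c⟩)
      · exact ⟨he, heX⟩
      · exact ⟨a, c⟩
    · rintro ⟨a, c⟩
      by_cases hx : x = e
      · exact Or.inl hx
      · exact Or.inr ⟨⟨a, hx⟩, c⟩
  rw [h5] at h4
  rw [h6] at h3
  omega

end Pool.Agent.H50.GW
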