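import Pool.Agent.H55.GW.Targets2

/-!
# wq_modules EX: minor-minimal matroids that are not k-branched are highly connected
-/

set_option autoImplicit false

namespace Pool.Agent.H50.GW

open Pool.Agent.H55.GW Set

theorem ok_congr {f g : Set ℕ → ℕ} {k : ℕ} : ∀ {t : BT}, (∀ U ⊆ t.set, f U = g U) →
    t.Ok f k → t.Ok g k
  | .leaf e, h, ht => by
    have h1 : f {e} = g {e} := h {e} subset_rfl
    have h2 : f {e} ≤ k := ht
    change g {e} ≤ k
    omega
  | .node l r, h, ht => by
    refine ⟨?_, ht.2.1, ok_congr (fun U hU => h U (hU.trans subset_union_left)) ht.2.2.1,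
      ok_congr (fun U hU => h U (hU.trans subset_union_right)) ht.2.2.2⟩
    have h1 := h (l.set ∪ r.set) subset_rfl
    have h2 := ht.1
    omega

theorem fEX_mono : Monotone fEX := by
  refine monotone_nat_of_le_succ ?_
  intro n
  change fEX n ≤ 9 * fEX n + 2
  omega

/-- titanic sets -/
def Titanic (f : Set ℕ → ℕ) (l : ℕ) (X : Set ℕ) : Prop :=
  ∀ X₁ X₂ X₃ : Set ℕ, X₁ ∪ X₂ ∪ X₃ = X → Disjoint X₁ X₂ →
    Disjoint X₁ X₃ → Disjoint X₂ X₃ → l ≤ f X₁ ∨ l ≤ f X₂ ∨ l ≤ f X₃

theorem ex_step (hT : T_TIT) (hL : T_LMS) {M N : Matroid ℕ} {k l e : ℕ}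
    (hE : M.E.Finite) (he : e ∈ M.E) (hN : N.E = M.E \ {e})
    (hle : ∀ Z ⊆ M.E \ {e}, lam N Z ≤ lam M Z)
    (heq : ∀ Y ⊆ M.E \ {e}, lam N Y = lam M Y → ∀ U ⊆ Y, lam N U = lam M U)
    (hB : Brd (lam N) k (M.E \ {e})) {X : Set ℕ} (hX : X ⊆ M.E) (heX : e ∈ X)
    (hXl : lam M X = l) (hlk : l ≤ k) (hne : (M.E \ X).Nonempty)
    (ht : Titanic (lam N) l (X \ {e})) : Brd (lam M) k (M.E \ X) := by
  have hNf : N.E.Finite := by
    rw [hN]
    exact hE.subset sdiff_subset
  obtain ⟨hsym, hsub, h0, -⟩ := hL N hNf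
  rw [hN] at hsym hsub
  have hsymM := (hL M hE).1
  have hY : M.E \ X ⊆ M.E \ {e} := by
    intro x hx
    exact ⟨hx.1, fun h => hx.2 (by rw [mem_singleton_iff] at h; rw [h]; exact heX)⟩
  have hX' : X \ {e} ⊆ M.E \ {e} := sdiff_subset_sdiff_left hX
  have hc : (M.E \ {e}) \ (X \ {e}) = M.E \ X := by
    ext x
    simp only [mem_sdiff, mem_singleton_iff]
    constructor
    · rintro ⟨⟨a, b⟩, c⟩
      exact ⟨a, fun h => c ⟨h, b⟩⟩
    · rintro ⟨a, b⟩
      refine ⟨⟨a, ?_⟩, fun h => b h.1⟩
      rintro rfl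
      exact b heX
  have h1 : lam N (X \ {e}) = lam N (M.E \ X) := by
    rw [← hc]
    exact (hsym _ hX').symm
  have h2 : lam M (M.E \ X) = l := by
    rw [hsymM X hX, hXl]
  have h3 : lam N (M.E \ X) ≤ l := by
    rw [← h2]
    exact hle _ hY
  have h4 : lam N (M.E \ X) = lam M (M.E \ X) := by
    have h5 := ht (X \ {e}) ∅ ∅ (by simp) (disjoint_empty _) (disjoint_empty _)
      (disjoint_empty _)
    rw [h0, h1] at h5
    rw [h2]
    omega
  have h5 := hT (M.E \ {e}) (lam N) k l hsym hsub h0 hB (X \ {e}) hX' (by omega) hlk ht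
    (by rw [hc]; exact hne)
  rw [hc] at h5
  obtain ⟨t, ht1, ht2⟩ := h5
  refine ⟨t, ok_congr ?_ ht1, ht2⟩
  rw [ht2]
  exact heq _ hY h4

theorem ncard_nine {X : Set ℕ} (hX : X.Finite) {A B : Fin 3 → Set ℕ} {n : ℕ}
    (hA : A 0 ∪ A 1 ∪ A 2 = X) (hB : B 0 ∪ B 1 ∪ B 2 = X)
    (h : ∀ i j, (A i ∩ B j).ncard ≤ n) : X.ncard ≤ 9 * n := by
  have h1 : X ⊆ ⋃ i ∈ (Finset.univ : Finset (Fin 3 × Fin 3)), (A i.1 ∩ B i.2) := by
    intro x hx
    have h2 : ∃ i, x ∈ A i := by
      rw [← hA] at hx
      rcases hx with (hx | hx) | hx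
      · exact ⟨0, hx⟩
      · exact ⟨1, hx⟩
      · exact ⟨2, hx⟩
    have h3 : ∃ j, x ∈ B j := by
      rw [← hB] at hx
      rcases hx with (hx | hx) | hx
      · exact ⟨0, hx⟩
      · exact ⟨1, hx⟩
      · exact ⟨2, hx⟩
    obtain ⟨i, hi⟩ := h2
    obtain ⟨j, hj⟩ := h3
    simp only [mem_iUnion]
    exact ⟨(i, j), Finset.mem_univ _, hi, hj⟩
  have hfin : ∀ i j, (A i ∩ B j).Finite := by
    intro i j
    refine hX.subset (inter_subset_left.trans ?_)
    rw [← hA]
    fin_cases i
    · exact (subset_union_left.trans subset_union_left)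
    · exact (subset_union_right.trans subset_union_left)
    · exact subset_union_right
  have h2 : (⋃ i ∈ (Finset.univ : Finset (Fin 3 × Fin 3)), (A i.1 ∩ B i.2)).Finite := by
    refine Finite.biUnion (Finset.finite_toSet _) ?_
    intro i _
    exact hfin _ _
  calc X.ncard ≤ (⋃ i ∈ (Finset.univ : Finset (Fin 3 × Fin 3)), (A i.1 ∩ B i.2)).ncard :=
        ncard_le_ncard h1 h2
    _ ≤ ∑ i ∈ (Finset.univ : Finset (Fin 3 × Fin 3)), (A i.1 ∩ B i.2).ncard :=
        Finset.set_ncard_biUnion_le _ _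
    _ ≤ ∑ _i ∈ (Finset.univ : Finset (Fin 3 × Fin 3)), n :=
        Finset.sum_le_sum fun i _ => h i.1 i.2
    _ = 9 * n := by simp

/-- EX: minor-minimal matroids that are not `k`-branched are highly connected -/
theorem ex (hT : T_TIT) (hL : T_LMS) (hU : T_UNC) : T_EX := by
  intro M k hE hEne hnB hmin
  obtain ⟨hsym, hsub, h0, hcard, hle, hdel, hcon⟩ := hL M hE
  have hEE : lam M M.E = 0 := by
    have h1 := hsym M.E subset_rfl
    rw [sdiff_self, h0] at h1
    exact h1.symm
  have hne : ∀ e ∈ M.E, (M.E \ {e}).Nonempty := by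
    intro e he
    by_contra hc
    rw [not_nonempty_iff_eq_empty, sdiff_eq_empty] at hc
    have h1 : M.E = {e} := hc.antisymm (singleton_subset_iff.mpr he)
    refine hnB ⟨.leaf e, ?_, ?_⟩
    · change lam M {e} ≤ k
      rw [← h1, hEE]
      exact Nat.zero_le k
    · change ({e} : Set ℕ) = M.E
      exact h1.symm
  have main : ∀ l ≤ k, ∀ X ⊆ M.E, lam M X = l →
      X.ncard ≤ fEX l ∨ (M.E \ X).ncard ≤ fEX l := by
    intro l
    induction l using Nat.strong_induction_on with
    | _ l ih =>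
    intro hlk
    -- the claim
    have claim : ∀ X ⊆ M.E, lam M X = l → fEX l < X.ncard → fEX l < (M.E \ X).ncard →
        Brd (lam M) k (M.E \ X) := by
      intro X hX hXl hXc hYc
      have hXfin : X.Finite := hE.subset hX
      have hXne : X.Nonempty := by
        rw [← ncard_pos hXfin]
        omega
      have hYne : (M.E \ X).Nonempty := by
        rw [← ncard_pos (hE.subset sdiff_subset)]
        omega
      obtain ⟨e, heX⟩ := hXne
      have he := hX heX
      have key : Titanic (lam (M.delete {e})) l (X \ {e}) ∨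
          Titanic (lam (M.contract {e})) l (X \ {e}) := by
        by_contra hc
        push Not at hc
        obtain ⟨hc1, hc2⟩ := hc
        unfold Titanic at hc1 hc2
        push Not at hc1 hc2
        obtain ⟨A1, A2, A3, hA, -, -, -, a1, a2, a3⟩ := hc1
        obtain ⟨B1, B2, B3, hB, -, -, -, b1, b2, b3⟩ := hc2
        obtain ⟨l', rfl⟩ : ∃ l', l = l' + 1 := ⟨l - 1, by omega⟩
        have hAB : ∀ A B : Set ℕ, A ⊆ X \ {e} → B ⊆ X \ {e} →
            lam (M.delete {e}) A < l' + 1 → lam (M.contract {e}) B < l' + 1 →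
            (A ∩ B).ncard ≤ fEX l' := by
          intro A B hAX hBX hA1 hB1
          have h1 := hU M hE e he A (hAX.trans (sdiff_subset_sdiff_left hX)) B
            (hBX.trans (sdiff_subset_sdiff_left hX))
          have key2 : ∀ Z ⊆ X, lam M Z ≤ l' → Z.ncard ≤ fEX l' := by
            intro Z hZ hZl
            have h2 := ih (lam M Z) (by omega) (by omega) Z (hZ.trans hX) rfl
            have h3 : fEX (lam M Z) ≤ fEX l' := fEX_mono hZl
            have h4 : fEX l' ≤ fEX (l' + 1) := fEX_mono (by omega)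
            rcases h2 with h2 | h2
            · omega
            · have h5 : (M.E \ X).ncard ≤ (M.E \ Z).ncard :=
                ncard_le_ncard (sdiff_subset_sdiff_right hZ) (hE.subset sdiff_subset)
              omega
          by_cases h2 : lam M (A ∩ B) ≤ l'
          · exact key2 _ (inter_subset_left.trans (hAX.trans sdiff_subset)) h2
          · have h3 : lam M (insert e (A ∪ B)) ≤ l' := by omega
            have h4 : insert e (A ∪ B) ⊆ X := insert_subset heX
              (union_subset (hAX.trans sdiff_subset) (hBX.trans sdiff_subset))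
            have h5 := key2 _ h4 h3
            refine le_trans (ncard_le_ncard ?_ (hXfin.subset h4)) h5
            intro x hx
            exact Or.inr (Or.inl hx.1)
        have h1 : (X \ {e}).ncard ≤ 9 * fEX l' := by
          refine ncard_nine (A := ![A1, A2, A3]) (B := ![B1, B2, B3])
            (hXfin.subset sdiff_subset) (by simpa using hA) (by simpa using hB) ?_
          have hA1 : A1 ⊆ X \ {e} := by rw [← hA]; exact subset_union_left.trans subset_union_left
          have hA2 : A2 ⊆ X \ {e} := by rw [← hA]; exact subset_union_right.trans subset_union_left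
          have hA3 : A3 ⊆ X \ {e} := by rw [← hA]; exact subset_union_right
          have hB1 : B1 ⊆ X \ {e} := by rw [← hB]; exact subset_union_left.trans subset_union_left
          have hB2 : B2 ⊆ X \ {e} := by rw [← hB]; exact subset_union_right.trans subset_union_left
          have hB3 : B3 ⊆ X \ {e} := by rw [← hB]; exact subset_union_right
          intro i j
          fin_cases i <;> fin_cases j
          · exact hAB A1 B1 hA1 hB1 a1 b1
          · exact hAB A1 B2 hA1 hB2 a1 b2
          · exact hAB A1 B3 hA1 hB3 a1 b3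
          · exact hAB A2 B1 hA2 hB1 a2 b1
          · exact hAB A2 B2 hA2 hB2 a2 b2
          · exact hAB A2 B3 hA2 hB3 a2 b3
          · exact hAB A3 B1 hA3 hB1 a3 b1
          · exact hAB A3 B2 hA3 hB2 a3 b2
          · exact hAB A3 B3 hA3 hB3 a3 b3
        have h2 : (X \ {e}).ncard + 1 = X.ncard := ncard_sdiff_singleton_add_one heX hXfin
        have h3 : fEX (l' + 1) = 9 * fEX l' + 2 := rfl
        omega
      rcases key with key | key
      · exact ex_step hT hL hE he (Matroid.delete_ground M {e}) (fun Z hZ => (hle e he Z hZ).1)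
          (hdel e he) (hmin e he (hne e he)).1 hX heX hXl hlk hYne key
      · exact ex_step hT hL hE he (Matroid.contract_ground M {e}) (fun Z hZ => (hle e he Z hZ).2)
          (hcon e he) (hmin e he (hne e he)).2 hX heX hXl hlk hYne key
    intro X hX hXl
    by_contra hc
    push Not at hc
    obtain ⟨hc1, hc2⟩ := hc
    have h1 := claim X hX hXl hc1 hc2
    have h2 := claim (M.E \ X) sdiff_subset (by rw [hsym X hX, hXl]) hc2
      (by rw [sdiff_sdiff_cancel_left hX]; exact hc1)
    rw [sdiff_sdiff_cancel_left hX] at h2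
    obtain ⟨t, ht, htY⟩ := h1
    obtain ⟨s, hs, hsX⟩ := h2
    refine hnB ⟨.node s t, ⟨?_, ?_, hs, ht⟩, ?_⟩
    · rw [htY, hsX, union_sdiff_cancel hX, hEE]
      exact Nat.zero_le k
    · rw [htY, hsX]
      exact disjoint_sdiff_right
    · change s.set ∪ t.set = M.E
      rw [htY, hsX, union_sdiff_cancel hX]
  intro X hX hXk
  exact main _ hXk X hX rfl

end Pool.Agent.H50.GW
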