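import Pool.Agent.H50.GW.Rk

/-!
# wq_modules LMS and UNC: the connectivity function
-/

set_option autoImplicit false

namespace Pool.Agent.H50.GW

open Pool.Agent.H55.GW Set

/-- LMS: basic properties of the connectivity function -/
theorem lms : T_LMS := by
  intro M hE
  refine ⟨?_, ?_, ?_, ?_, ?_, ?_, ?_⟩
  · intro X hX
    have h1 := lam_add hE hX
    have h2 := lam_add hE (X := M.E \ X) sdiff_subset
    rw [sdiff_sdiff_cancel_left hX] at h2
    omega
  · intro X hX Y hY
    have h1 := lam_add hE hX
    have h2 := lam_add hE hY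
    have h3 := lam_add hE (union_subset hX hY)
    have h4 := lam_add hE (X := X ∩ Y) (inter_subset_left.trans hX)
    have h5 := rk_submod hE X Y
    have h6 := rk_submod hE (M.E \ X) (M.E \ Y)
    have h7 : (M.E \ X) ∩ (M.E \ Y) = M.E \ (X ∪ Y) := by
      ext x
      simp only [mem_inter_iff, mem_sdiff, mem_union]
      tauto
    have h8 : (M.E \ X) ∪ (M.E \ Y) = M.E \ (X ∩ Y) := by
      ext x
      simp only [mem_inter_iff, mem_sdiff, mem_union]
      tauto
    rw [h7, h8] at h6
    omega
  · have h1 := lam_add hE (X := ∅) (empty_subset _)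
    rw [sdiff_empty, rk_empty] at h1
    omega
  · intro X hX
    have h1 := lam_add hE hX
    have h2 := rk_mono hE (X := M.E \ X) (Y := M.E) sdiff_subset
    have h3 := rk_le_ncard hE hX
    have h4 := ncard_le_ncard hX hE
    omega
  · intro e he X hX
    have h1 := lam_add hE (hX.trans sdiff_subset)
    have h2 := lam_delete hE hX
    have h3 := lam_contract hE he hX
    have heX : e ∉ X := fun h => (hX h).2 rfl
    refine ⟨?_, ?_⟩
    · have h4 := rk_submod hE (M.E \ X) (M.E \ {e})
      have h5 : (M.E \ X) ∩ (M.E \ {e}) = (M.E \ {e}) \ X := by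
        ext x
        simp only [mem_inter_iff, mem_sdiff]
        tauto
      have h6 : (M.E \ X) ∪ (M.E \ {e}) = M.E := by
        ext x
        simp only [mem_union, mem_sdiff, mem_singleton_iff]
        constructor
        · rintro (h | h)
          · exact h.1
          · exact h.1
        · intro h
          by_cases hx : x = e
          · subst hx
            exact Or.inl ⟨h, heX⟩
          · exact Or.inr ⟨h, hx⟩
      rw [h5, h6] at h4
      omega
    · have h4 := rk_submod hE X {e}
      rw [union_singleton] at h4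
      omega
  · intro e he Y hY hYe X hX
    have h1 := lam_add hE (hY.trans sdiff_subset)
    have h2 := lam_delete hE hY
    have h3 := lam_add hE ((hX.trans hY).trans sdiff_subset)
    have h4 := lam_delete hE (hX.trans hY)
    have heY : e ∉ Y := fun h => (hY h).2 rfl
    have h5 := rk_submod hE (M.E \ Y) ((M.E \ {e}) \ X)
    have h6 : (M.E \ Y) ∩ ((M.E \ {e}) \ X) = (M.E \ {e}) \ Y := by
      ext x
      simp only [mem_inter_iff, mem_sdiff]
      constructor
      · rintro ⟨⟨a, b⟩, ⟨c, d⟩, f⟩
        exact ⟨⟨a, d⟩, b⟩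
      · rintro ⟨⟨a, b⟩, c⟩
        exact ⟨⟨a, c⟩, ⟨a, b⟩, fun h => c (hX h)⟩
    have h7 : (M.E \ Y) ∪ ((M.E \ {e}) \ X) = M.E \ X := by
      ext x
      simp only [mem_union, mem_sdiff, mem_singleton_iff]
      constructor
      · rintro (⟨a, b⟩ | ⟨⟨a, b⟩, c⟩)
        · exact ⟨a, fun h => b (hX h)⟩
        · exact ⟨a, c⟩
      · rintro ⟨a, b⟩
        by_cases hx : x = e
        · subst hx
          exact Or.inl ⟨a, heY⟩
        · exact Or.inr ⟨⟨a, hx⟩, b⟩
    rw [h6, h7] at h5
    have h8 := rk_submod hE (M.E \ X) (M.E \ {e})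
    have h9 : (M.E \ X) ∩ (M.E \ {e}) = (M.E \ {e}) \ X := by
      ext x
      simp only [mem_inter_iff, mem_sdiff]
      tauto
    have h10 : (M.E \ X) ∪ (M.E \ {e}) = M.E := by
      ext x
      simp only [mem_union, mem_sdiff, mem_singleton_iff]
      constructor
      · rintro (h | h)
        · exact h.1
        · exact h.1
      · intro h
        by_cases hx : x = e
        · subst hx
          exact Or.inl ⟨h, fun h' => heY (hX h')⟩
        · exact Or.inr ⟨h, hx⟩
    rw [h9, h10] at h8
    omega
  · intro e he Y hY hYe X hX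
    have h1 := lam_add hE (hY.trans sdiff_subset)
    have h2 := lam_contract hE he hY
    have h3 := lam_add hE ((hX.trans hY).trans sdiff_subset)
    have h4 := lam_contract hE he (hX.trans hY)
    have heY : e ∉ Y := fun h => (hY h).2 rfl
    have h5 := rk_submod hE Y (insert e X)
    have h6 : Y ∩ insert e X = X := by
      ext x
      simp only [mem_inter_iff, mem_insert_iff]
      constructor
      · rintro ⟨a, rfl | b⟩
        · exact absurd a heY
        · exact b
      · intro a
        exact ⟨hX a, Or.inr a⟩
    have h7 : Y ∪ insert e X = insert e Y := by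
      ext x
      simp only [mem_union, mem_insert_iff]
      constructor
      · rintro (a | rfl | a)
        · exact Or.inr a
        · exact Or.inl rfl
        · exact Or.inr (hX a)
      · rintro (rfl | a)
        · exact Or.inr (Or.inl rfl)
        · exact Or.inl a
    rw [h6, h7] at h5
    have h8 := rk_submod hE X {e}
    rw [union_singleton] at h8
    have h9 : rk M (X ∩ {e}) = 0 := by
      have h10 : X ∩ {e} = ∅ := by
        ext x
        simp only [mem_inter_iff, mem_singleton_iff, mem_empty_iff_false, iff_false, not_and]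
        rintro a rfl
        exact heY (hX a)
      rw [h10, rk_empty]
    omega

/-- UNC: uncrossing deletion and contraction -/
theorem unc : T_UNC := by
  intro M hE e he X hX Y hY
  have heX : e ∉ X := fun h => (hX h).2 rfl
  have heY : e ∉ Y := fun h => (hY h).2 rfl
  have h1 := lam_add hE (X := X ∩ Y) ((inter_subset_left.trans hX).trans sdiff_subset)
  have h2 := lam_add hE (X := insert e (X ∪ Y))
    (insert_subset he (union_subset (hX.trans sdiff_subset) (hY.trans sdiff_subset)))
  have h3 := lam_delete hE hX
  have h4 := lam_contract hE he hY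
  have h5 := rk_submod hE X (insert e Y)
  have h6 : X ∩ insert e Y = X ∩ Y := by
    ext x
    simp only [mem_inter_iff, mem_insert_iff]
    constructor
    · rintro ⟨a, rfl | b⟩
      · exact absurd a heX
      · exact ⟨a, b⟩
    · rintro ⟨a, b⟩
      exact ⟨a, Or.inr b⟩
  have h7 : X ∪ insert e Y = insert e (X ∪ Y) := by
    rw [union_insert]
  rw [h6, h7] at h5
  have h8 := rk_submod hE ((M.E \ {e}) \ X) (M.E \ Y)
  have h9 : ((M.E \ {e}) \ X) ∩ (M.E \ Y) = M.E \ insert e (X ∪ Y) := by
    ext x
    simp only [mem_inter_iff, mem_sdiff, mem_singleton_iff, mem_insert_iff, mem_union]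
    tauto
  have h10 : ((M.E \ {e}) \ X) ∪ (M.E \ Y) = M.E \ (X ∩ Y) := by
    ext x
    simp only [mem_union, mem_sdiff, mem_singleton_iff, mem_inter_iff]
    constructor
    · rintro (⟨⟨a, b⟩, c⟩ | ⟨a, b⟩)
      · exact ⟨a, fun h => c h.1⟩
      · exact ⟨a, fun h => b h.2⟩
    · rintro ⟨a, b⟩
      by_cases hx : x = e
      · subst hx
        exact Or.inr ⟨a, heY⟩
      · by_cases hy : x ∈ Y
        · exact Or.inl ⟨⟨a, hx⟩, fun h => b ⟨h, hy⟩⟩
        · exact Or.inr ⟨a, hy⟩
  rw [h9, h10] at h8
  have h11 := rk_singleton_le hE e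
  have h12 := rk_mono hE (X := M.E \ {e}) (Y := M.E) sdiff_subset
  omega

end Pool.Agent.H50.GW
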