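import Pool.Agent.H55.GW.Targets2

/-!
# wq_modules TIT: titanic sets
-/

set_option autoImplicit false

namespace Pool.Agent.H50.GW

open Pool.Agent.H55.GW Set

section

variable {E : Set ℕ} {f : Set ℕ → ℕ} {k ℓ : ℕ} {X : Set ℕ}

/-- empty or branched -/
def PB (f : Set ℕ → ℕ) (k : ℕ) (Z : Set ℕ) : Prop := Z = ∅ ∨ Brd f k Z

theorem ok_le : ∀ {s : BT}, s.Ok f k → f s.set ≤ k
  | .leaf _, h => h
  | .node _ _, h => h.1

theorem PB.union {A B : Set ℕ} (hA : PB f k A) (hB : PB f k B) (hd : Disjoint A B)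
    (hk : f (A ∪ B) ≤ k) : PB f k (A ∪ B) := by
  rcases hA with rfl | ⟨a, ha, rfl⟩
  · rwa [empty_union]
  · rcases hB with rfl | ⟨b, hb, rfl⟩
    · rw [union_empty]
      exact Or.inr ⟨a, ha, rfl⟩
    · exact Or.inr ⟨.node a b, ⟨hk, hd, ha, hb⟩, rfl⟩

/-- all subtrees have good sets -/
def AllGood (f : Set ℕ → ℕ) (ℓ : ℕ) (X : Set ℕ) : BT → Prop
  | .leaf e => ℓ ≤ f (X \ {e})
  | .node l r => ℓ ≤ f (X \ (l.set ∪ r.set)) ∧ AllGood f ℓ X l ∧ AllGood f ℓ X r

theorem allGood_of : ∀ {s : BT}, (∀ V ⊆ s.set, ℓ ≤ f (X \ V)) → AllGood f ℓ X s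
  | .leaf _, h => h _ subset_rfl
  | .node _ _, h => ⟨h _ subset_rfl, allGood_of fun V hV => h V (hV.trans subset_union_left),
      allGood_of fun V hV => h V (hV.trans subset_union_right)⟩

theorem exists_bad {s : BT} (h : ¬ AllGood f ℓ X s) : ∃ V ⊆ s.set, f (X \ V) < ℓ := by
  by_contra hc
  push Not at hc
  exact h (allGood_of hc)

theorem posi (hsym : ∀ X ⊆ E, f (E \ X) = f X)
    (hsub : ∀ X ⊆ E, ∀ Y ⊆ E, f (X ∪ Y) + f (X ∩ Y) ≤ f X + f Y) {A B : Set ℕ}
    (hA : A ⊆ E) (hB : B ⊆ E) : f (A \ B) + f (B \ A) ≤ f A + f B := by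
  have h1 := hsub A hA (E \ B) sdiff_subset
  have h2 : A ∩ (E \ B) = A \ B := by
    ext x
    simp only [mem_inter_iff, mem_sdiff]
    constructor
    · rintro ⟨a, b, c⟩
      exact ⟨a, c⟩
    · rintro ⟨a, c⟩
      exact ⟨a, hA a, c⟩
  have h3 : A ∪ (E \ B) = E \ (B \ A) := by
    ext x
    simp only [mem_union, mem_sdiff]
    constructor
    · rintro (a | ⟨a, b⟩)
      · exact ⟨hA a, fun h => h.2 a⟩
      · exact ⟨a, fun h => b h.1⟩
    · rintro ⟨a, b⟩
      by_cases hx : x ∈ A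
      · exact Or.inl hx
      · exact Or.inr ⟨a, fun h => b ⟨h, hx⟩⟩
  rw [h2, h3, hsym _ (sdiff_subset.trans hB), hsym _ hB] at h1
  omega

theorem good_le (hsym : ∀ X ⊆ E, f (E \ X) = f X)
    (hsub : ∀ X ⊆ E, ∀ Y ⊆ E, f (X ∪ Y) + f (X ∩ Y) ≤ f X + f Y) (hXE : X ⊆ E) (hX : f X ≤ ℓ)
    {U : Set ℕ} (hU : U ⊆ E) (hg : ℓ ≤ f (X \ U)) (hk : f U ≤ k) : f (U \ X) ≤ k := by
  have h1 := posi hsym hsub hU hXE
  omega

theorem not_bad (hsym : ∀ X ⊆ E, f (E \ X) = f X)
    (hsub : ∀ X ⊆ E, ∀ Y ⊆ E, f (X ∪ Y) + f (X ∩ Y) ≤ f X + f Y) (h0 : f ∅ = 0) (hXE : X ⊆ E)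
    (htit : ∀ X₁ X₂ X₃ : Set ℕ, X₁ ∪ X₂ ∪ X₃ = X → Disjoint X₁ X₂ →
      Disjoint X₁ X₃ → Disjoint X₂ X₃ → ℓ ≤ f X₁ ∨ ℓ ≤ f X₂ ∨ ℓ ≤ f X₃)
    {U V : Set ℕ} (hUV : Disjoint U V) (hU : f (X \ U) < ℓ) : ℓ ≤ f (X \ V) := by
  by_contra hV
  push Not at hV
  have h1 := posi hsym hsub (A := X \ U) (B := X \ V) (sdiff_subset.trans hXE)
    (sdiff_subset.trans hXE)
  have h2 : (X \ U) \ (X \ V) = X ∩ V := by
    ext x
    simp only [mem_inter_iff, mem_sdiff]
    constructor
    · rintro ⟨⟨a, b⟩, c⟩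
      refine ⟨a, ?_⟩
      by_contra hx
      exact c ⟨a, hx⟩
    · rintro ⟨a, b⟩
      exact ⟨⟨a, fun h => disjoint_left.mp hUV h b⟩, fun h => h.2 b⟩
  have h3 : (X \ V) \ (X \ U) = X ∩ U := by
    ext x
    simp only [mem_inter_iff, mem_sdiff]
    constructor
    · rintro ⟨⟨a, b⟩, c⟩
      refine ⟨a, ?_⟩
      by_contra hx
      exact c ⟨a, hx⟩
    · rintro ⟨a, b⟩
      exact ⟨⟨a, fun h => disjoint_left.mp hUV b h⟩, fun h => h.2 b⟩
  rw [h2, h3] at h1
  have key : ∀ W : Set ℕ, f (X \ W) < ℓ → ℓ ≤ f (X ∩ W) := by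
    intro W hW
    have h4 := htit (X ∩ W) (X \ W) ∅ (by rw [union_empty, inter_union_sdiff])
      (disjoint_sdiff_inter.symm) (disjoint_empty _) (disjoint_empty _)
    rcases h4 with h | h | h
    · exact h
    · omega
    · omega
  have h5 := key U hU
  have h6 := key V hV
  omega

theorem claimA (hsym : ∀ X ⊆ E, f (E \ X) = f X)
    (hsub : ∀ X ⊆ E, ∀ Y ⊆ E, f (X ∪ Y) + f (X ∩ Y) ≤ f X + f Y) (hXE : X ⊆ E) (hX : f X ≤ ℓ) :
    ∀ {s : BT}, s.Ok f k → s.set ⊆ E → AllGood f ℓ X s → PB f k (s.set \ X)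
  | .leaf e, hok, hE, hg => by
    by_cases he : e ∈ X
    · left
      ext x
      simp only [BT.set, mem_sdiff, mem_singleton_iff, mem_empty_iff_false, iff_false, not_and,
        not_not]
      rintro rfl
      exact he
    · right
      refine ⟨.leaf e, hok, ?_⟩
      ext x
      simp only [BT.set, mem_sdiff, mem_singleton_iff]
      constructor
      · rintro rfl
        exact ⟨rfl, he⟩
      · rintro ⟨a, b⟩
        exact a
  | .node l r, hok, hE, hg => by
    have h1 := claimA hsym hsub hXE hX hok.2.2.1 (subset_union_left.trans hE) hg.2.1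
    have h2 := claimA hsym hsub hXE hX hok.2.2.2 (subset_union_right.trans hE) hg.2.2
    have h3 := good_le hsym hsub hXE hX hE hg.1 hok.1
    have h4 : (BT.node l r).set \ X = (l.set \ X) ∪ (r.set \ X) := by
      simp only [BT.set]
      exact union_sdiff_distrib
    rw [h4]
    refine h1.union h2 (hok.2.1.mono sdiff_subset sdiff_subset) ?_
    rw [← h4]
    exact h3

theorem mainClaim (hsym : ∀ X ⊆ E, f (E \ X) = f X)
    (hsub : ∀ X ⊆ E, ∀ Y ⊆ E, f (X ∪ Y) + f (X ∩ Y) ≤ f X + f Y) (h0 : f ∅ = 0) (hXE : X ⊆ E)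
    (hX : f X ≤ ℓ) (hℓ : ℓ ≤ k)
    (htit : ∀ X₁ X₂ X₃ : Set ℕ, X₁ ∪ X₂ ∪ X₃ = X → Disjoint X₁ X₂ →
      Disjoint X₁ X₃ → Disjoint X₂ X₃ → ℓ ≤ f X₁ ∨ ℓ ≤ f X₂ ∨ ℓ ≤ f X₃) :
    ∀ {s : BT}, s.Ok f k → s.set ⊆ E → PB f k ((E \ s.set) \ X) → PB f k (E \ X)
  | .leaf e, hok, hE, hP => by
    have h1 : PB f k ({e} \ X) := by
      by_cases he : e ∈ X
      · left
        ext x
        simp only [mem_sdiff, mem_singleton_iff, mem_empty_iff_false, iff_false, not_and,
          not_not]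
        rintro rfl
        exact he
      · right
        refine ⟨.leaf e, hok, ?_⟩
        ext x
        simp only [BT.set, mem_sdiff, mem_singleton_iff]
        constructor
        · rintro rfl
          exact ⟨rfl, he⟩
        · rintro ⟨a, b⟩
          exact a
    have he : e ∈ E := hE rfl
    have h2 : E \ X = ((E \ {e}) \ X) ∪ ({e} \ X) := by
      ext x
      simp only [mem_union, mem_sdiff, mem_singleton_iff]
      constructor
      · rintro ⟨a, b⟩
        by_cases hx : x = e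
        · exact Or.inr ⟨hx, b⟩
        · exact Or.inl ⟨⟨a, hx⟩, b⟩
      · rintro (⟨⟨a, b⟩, c⟩ | ⟨rfl, b⟩)
        · exact ⟨a, c⟩
        · exact ⟨he, b⟩
    have h3 : f (E \ X) ≤ k := by
      rw [hsym X hXE]
      omega
    rw [h2]
    refine PB.union hP h1 ?_ (by rwa [← h2])
    rw [disjoint_left]
    rintro x ⟨⟨a, b⟩, c⟩ ⟨d, e⟩
    exact b d
  | .node s₁ s₂, hok, hE, hP => by
    have hE1 : s₁.set ⊆ E := subset_union_left.trans hE
    have hE2 : s₂.set ⊆ E := subset_union_right.trans hE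
    have hd : Disjoint s₁.set s₂.set := hok.2.1
    have hk1 : f (E \ s₁.set) ≤ k := by
      rw [hsym _ hE1]
      exact ok_le hok.2.2.1
    have hk2 : f (E \ s₂.set) ≤ k := by
      rw [hsym _ hE2]
      exact ok_le hok.2.2.2
    have e1 : (E \ s₁.set) \ X = ((E \ (BT.node s₁ s₂).set) \ X) ∪ (s₂.set \ X) := by
      ext x
      simp only [BT.set, mem_union, mem_sdiff]
      constructor
      · rintro ⟨⟨a, b⟩, c⟩
        by_cases hx : x ∈ s₂.set
        · exact Or.inr ⟨hx, c⟩
        · exact Or.inl ⟨⟨a, fun h => h.elim b hx⟩, c⟩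
      · rintro (⟨⟨a, b⟩, c⟩ | ⟨a, b⟩)
        · exact ⟨⟨a, fun h => b (Or.inl h)⟩, c⟩
        · exact ⟨⟨hE2 a, fun h => disjoint_left.mp hd h a⟩, b⟩
    have e2 : (E \ s₂.set) \ X = ((E \ (BT.node s₁ s₂).set) \ X) ∪ (s₁.set \ X) := by
      ext x
      simp only [BT.set, mem_union, mem_sdiff]
      constructor
      · rintro ⟨⟨a, b⟩, c⟩
        by_cases hx : x ∈ s₁.set
        · exact Or.inr ⟨hx, c⟩
        · exact Or.inl ⟨⟨a, fun h => h.elim hx b⟩, c⟩
      · rintro (⟨⟨a, b⟩, c⟩ | ⟨a, b⟩)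
        · exact ⟨⟨a, fun h => b (Or.inr h)⟩, c⟩
        · exact ⟨⟨hE1 a, fun h => disjoint_left.mp hd a h⟩, b⟩
    have d1 : Disjoint ((E \ (BT.node s₁ s₂).set) \ X) (s₁.set \ X) := by
      rw [disjoint_left]
      rintro x ⟨⟨a, b⟩, c⟩ ⟨d, e⟩
      exact b (Or.inl d)
    have d2 : Disjoint ((E \ (BT.node s₁ s₂).set) \ X) (s₂.set \ X) := by
      rw [disjoint_left]
      rintro x ⟨⟨a, b⟩, c⟩ ⟨d, e⟩
      exact b (Or.inr d)
    by_cases hg1 : AllGood f ℓ X s₁
    · by_cases hg2 : AllGood f ℓ X s₂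
      · have p1 := claimA hsym hsub hXE hX hok.2.2.1 hE1 hg1
        have p2 := claimA hsym hsub hXE hX hok.2.2.2 hE2 hg2
        have hEX : f (E \ X) ≤ k := by
          rw [hsym X hXE]
          omega
        have ht := htit (X \ (BT.node s₁ s₂).set) (X ∩ s₁.set) (X ∩ s₂.set) (by
            ext x
            simp only [BT.set, mem_union, mem_sdiff, mem_inter_iff]
            tauto)
          (by
            rw [disjoint_left]
            rintro x ⟨a, b⟩ ⟨c, d⟩
            exact b (Or.inl d))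
          (by
            rw [disjoint_left]
            rintro x ⟨a, b⟩ ⟨c, d⟩
            exact b (Or.inr d))
          (hd.mono inter_subset_right inter_subset_right)
        rcases ht with ht | ht | ht
        · have h1 : PB f k ((s₁.set ∪ s₂.set) \ X) := by
            have h2 : (s₁.set ∪ s₂.set) \ X = (s₁.set \ X) ∪ (s₂.set \ X) := union_sdiff_distrib
            rw [h2]
            refine p1.union p2 (hd.mono sdiff_subset sdiff_subset) ?_
            rw [← h2]
            exact good_le hsym hsub hXE hX hE ht hok.1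
          have h3 : E \ X = ((E \ (BT.node s₁ s₂).set) \ X) ∪ ((s₁.set ∪ s₂.set) \ X) := by
            ext x
            simp only [BT.set, mem_union, mem_sdiff]
            constructor
            · rintro ⟨a, b⟩
              by_cases hx : x ∈ s₁.set ∨ x ∈ s₂.set
              · exact Or.inr ⟨hx, b⟩
              · exact Or.inl ⟨⟨a, hx⟩, b⟩
            · rintro (⟨⟨a, b⟩, c⟩ | ⟨a, b⟩)
              · exact ⟨a, c⟩
              · exact ⟨a.elim (fun h => hE1 h) (fun h => hE2 h), b⟩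
          rw [h3]
          refine hP.union h1 ?_ (by rwa [← h3])
          rw [disjoint_left]
          rintro x ⟨⟨a, b⟩, c⟩ ⟨d, e⟩
          exact b d
        · have h1 : X \ (E \ s₁.set) = X ∩ s₁.set := by
            ext x
            simp only [mem_sdiff, mem_inter_iff]
            constructor
            · rintro ⟨a, b⟩
              refine ⟨a, ?_⟩
              by_contra hx
              exact b ⟨hXE a, hx⟩
            · rintro ⟨a, b⟩
              exact ⟨a, fun h => h.2 b⟩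
          have h2 : PB f k ((E \ s₁.set) \ X) := by
            rw [e1]
            refine hP.union p2 d2 ?_
            rw [← e1]
            exact good_le hsym hsub hXE hX sdiff_subset (by rw [h1]; exact ht) hk1
          have h3 : E \ X = ((E \ s₁.set) \ X) ∪ (s₁.set \ X) := by
            ext x
            simp only [mem_union, mem_sdiff]
            constructor
            · rintro ⟨a, b⟩
              by_cases hx : x ∈ s₁.set
              · exact Or.inr ⟨hx, b⟩
              · exact Or.inl ⟨⟨a, hx⟩, b⟩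
            · rintro (⟨⟨a, b⟩, c⟩ | ⟨a, b⟩)
              · exact ⟨a, c⟩
              · exact ⟨hE1 a, b⟩
          rw [h3]
          refine h2.union p1 ?_ (by rwa [← h3])
          rw [disjoint_left]
          rintro x ⟨⟨a, b⟩, c⟩ ⟨d, e⟩
          exact b d
        · have h1 : X \ (E \ s₂.set) = X ∩ s₂.set := by
            ext x
            simp only [mem_sdiff, mem_inter_iff]
            constructor
            · rintro ⟨a, b⟩
              refine ⟨a, ?_⟩
              by_contra hx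
              exact b ⟨hXE a, hx⟩
            · rintro ⟨a, b⟩
              exact ⟨a, fun h => h.2 b⟩
          have h2 : PB f k ((E \ s₂.set) \ X) := by
            rw [e2]
            refine hP.union p1 d1 ?_
            rw [← e2]
            exact good_le hsym hsub hXE hX sdiff_subset (by rw [h1]; exact ht) hk2
          have h3 : E \ X = ((E \ s₂.set) \ X) ∪ (s₂.set \ X) := by
            ext x
            simp only [mem_union, mem_sdiff]
            constructor
            · rintro ⟨a, b⟩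
              by_cases hx : x ∈ s₂.set
              · exact Or.inr ⟨hx, b⟩
              · exact Or.inl ⟨⟨a, hx⟩, b⟩
            · rintro (⟨⟨a, b⟩, c⟩ | ⟨a, b⟩)
              · exact ⟨a, c⟩
              · exact ⟨hE2 a, b⟩
          rw [h3]
          refine h2.union p2 ?_ (by rwa [← h3])
          rw [disjoint_left]
          rintro x ⟨⟨a, b⟩, c⟩ ⟨d, e⟩
          exact b d
      · obtain ⟨U, hU, hUb⟩ := exists_bad hg2
        have p1 := claimA hsym hsub hXE hX hok.2.2.1 hE1 (allGood_of fun V hV =>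
          not_bad hsym hsub h0 hXE htit (hd.symm.mono hU hV) hUb)
        refine mainClaim hsym hsub h0 hXE hX hℓ htit hok.2.2.2 hE2 ?_
        rw [e2]
        refine hP.union p1 d1 ?_
        rw [← e2]
        refine good_le hsym hsub hXE hX sdiff_subset ?_ hk2
        refine not_bad hsym hsub h0 hXE htit (U := U) ?_ hUb
        rw [disjoint_left]
        intro x hx h
        exact h.2 (hU hx)
    · obtain ⟨U, hU, hUb⟩ := exists_bad hg1
      have p2 := claimA hsym hsub hXE hX hok.2.2.2 hE2 (allGood_of fun V hV =>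
        not_bad hsym hsub h0 hXE htit (hd.mono hU hV) hUb)
      refine mainClaim hsym hsub h0 hXE hX hℓ htit hok.2.2.1 hE1 ?_
      rw [e1]
      refine hP.union p2 d2 ?_
      rw [← e1]
      refine good_le hsym hsub hXE hX sdiff_subset ?_ hk1
      refine not_bad hsym hsub h0 hXE htit (U := U) ?_ hUb
      rw [disjoint_left]
      intro x hx h
      exact h.2 (hU hx)

end

/-- TIT: titanic sets -/
theorem tit : T_TIT := by
  intro E f k ℓ hsym hsub h0 hB X hXE hX hℓ htit hne
  obtain ⟨t, ht, rfl⟩ := hB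
  have h1 : PB f k ((t.set \ t.set) \ X) := by
    left
    simp
  have h2 := mainClaim hsym hsub h0 hXE hX hℓ htit ht subset_rfl h1
  rcases h2 with h2 | h2
  · rw [h2] at hne
    exact absurd hne (by simp)
  · exact h2

end Pool.Agent.H50.GW
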